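import Pool.Agent.H207.TF.Stm2
import Pool.Agent.H307.TF207.TANF

/-!
# Project TF: speeds of critical points and of critical orbits in families

The lemmas on moving zeros are those of `Pool.Agent.H307.TF207.TANF` (helper307).
-/

set_option autoImplicit false

open Metric Set MeasureTheory Filter Topology Polynomial
open scoped OnePoint ENNReal

namespace Pool.Agent.H784.TF207

open Pool.Agent.H792R2.CE Pool.Agent.H211.LR Pool.Agent.H211.AD Pool.Agent.H207.TF
  Pool.Agent.H211.LD Pool.Agent.H307.TF207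

/-- Hasse derivatives commute with the derivative -/
theorem hasse_derivative (j : ℕ) (f : ℂ[X]) :
    hasseDeriv j (derivative f) = derivative (hasseDeriv j f) := by
  have h1 := LinearMap.congr_fun (hasseDeriv_comp (R := ℂ) 1 j) f
  have h2 := LinearMap.congr_fun (hasseDeriv_comp (R := ℂ) j 1) f
  rw [LinearMap.comp_apply, hasseDeriv_one, LinearMap.smul_apply] at h1 h2
  rw [h1, h2, add_comm 1 j]
  congr 1
  rw [Nat.choose_one_right, Nat.choose_succ_self_right]

/-- the first variation with the speed of the critical point -/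
theorem tan_two {d : ℕ} {p : ℂ → EE d} {v : EE d} (hp : HasDerivAt p v 0) (c : ℂ → ℂ) (k : ℕ)
    (hc : DifferentiableAt ℂ c 0)
    (hdvd : ∀ᶠ s in 𝓝 (0 : ℂ), (X - C (c s)) ^ k ∣ wr (PP (p s)) (QQ (p s)))
    (hQ : (QQ (p 0)).eval (c 0) ≠ 0) :
    (X - C (c 0)) ^ (k + 1) ∣
      varS (p 0) v - C (deriv (fun s => rf (PP (p s)) (QQ (p s)) (c s)) 0) * QQ (p 0) ^ 2 +
        C (deriv c 0) * wr (PP (p 0)) (QQ (p 0)) := by
  have hPc := fun n => (coeff_deriv hp n).1
  have hQc := fun n => (coeff_deriv hp n).2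
  have hPe := hasDerivAt_eval (fun s => PP (p s)) (PP v) d (fun s => PP_deg _) (PP_deg _) hPc c _
    hc.hasDerivAt
  have hQe := hasDerivAt_eval (fun s => QQ (p s)) (QQ v) d (fun s => QQ_deg _) (QQ_deg _) hQc c _
    hc.hasDerivAt
  have hV := (tan_one hp c k hc hdvd hQ).1
  obtain ⟨V, hVd⟩ : ∃ V : ℂ → ℂ, V = fun s => rf (PP (p s)) (QQ (p s)) (c s) := ⟨_, rfl⟩
  rw [← hVd] at hV ⊢
  obtain ⟨a, ha⟩ : ∃ a : ℂ, a = deriv V 0 := ⟨_, rfl⟩
  rw [← ha]
  have hVa : HasDerivAt V a 0 := by rw [ha]; exact hV.hasDerivAt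
  have hQn : ∀ᶠ s in 𝓝 (0 : ℂ), (QQ (p s)).eval (c s) ≠ 0 := hQe.continuousAt.eventually_ne hQ
  -- the numerators
  have key : ∀ᶠ s in 𝓝 (0 : ℂ), (X - C (c s)) ^ (k + 1) ∣ PP (p s) - C (V s) * QQ (p s) := by
    filter_upwards [hQn, hdvd] with s h1 h2
    apply dvd_succ _ (QQ (p s)) _ _ h1 k
    · have e : wr (PP (p s) - C (V s) * QQ (p s)) (QQ (p s)) = wr (PP (p s)) (QQ (p s)) := by
        simp only [wr, derivative_sub, derivative_mul, derivative_C]
        ring
      rw [e]
      exact h2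
    · rw [eval_sub, eval_mul, eval_C, hVd]
      simp only [rf]
      rw [div_mul_cancel₀ _ h1, sub_self]
  have hw : ∀ n, HasDerivAt (fun s => (PP (p s) - C (V s) * QQ (p s)).coeff n)
      ((PP v - C a * QQ (p 0) - C (V 0) * QQ v).coeff n) 0 := by
    intro n
    have h1 := (hPc n).sub (hVa.mul (hQc n))
    simp only [coeff_sub, coeff_C_mul]
    rw [sub_sub]
    exact h1
  have hdeg : ∀ s, (PP (p s) - C (V s) * QQ (p s)).natDegree ≤ d := fun s =>
    (natDegree_sub_le _ _).trans (max_le (PP_deg _) ((natDegree_C_mul_le _ _).trans (QQ_deg _)))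
  have hdeg' : (PP v - C a * QQ (p 0) - C (V 0) * QQ v).natDegree ≤ d :=
    (natDegree_sub_le _ _).trans (max_le ((natDegree_sub_le _ _).trans (max_le (PP_deg _)
      ((natDegree_C_mul_le _ _).trans (QQ_deg _)))) ((natDegree_C_mul_le _ _).trans (QQ_deg _)))
  have h0 := key.self_of_nhds
  have hd1 : (X - C (c 0)) ^ (k + 1) ∣ (PP v - C a * QQ (p 0) - C (V 0) * QQ v) +
      C (deriv c 0) * derivative (PP (p 0) - C (V 0) * QQ (p 0)) := by
    rw [dvd_iff_hasse]
    intro j hj
    have h1 := hasDerivAt_eval (fun s => hasseDeriv j (PP (p s) - C (V s) * QQ (p s))) _ d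
      (fun s => (natDegree_hasseDeriv_le _ _).trans ((Nat.sub_le _ _).trans (hdeg s)))
      ((natDegree_hasseDeriv_le _ _).trans ((Nat.sub_le _ _).trans hdeg')) (coeff_hasse hw j) c _
      hc.hasDerivAt
    have h2 : (fun s => (hasseDeriv j (PP (p s) - C (V s) * QQ (p s))).eval (c s)) =ᶠ[𝓝 0]
        fun _ => (0 : ℂ) := by
      filter_upwards [key] with s hs
      exact (dvd_iff_hasse _ _ _).1 hs j hj
    have h3 := (h1.congr_of_eventuallyEq h2.symm).unique (hasDerivAt_const (0 : ℂ) (0 : ℂ))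
    rw [map_add, ← smul_eq_C_mul (deriv c 0), map_smul, hasse_derivative, eval_add, eval_smul, smul_eq_mul,
      mul_comm (deriv c 0)]
    exact h3
  have e : varS (p 0) v - C a * QQ (p 0) ^ 2 + C (deriv c 0) * wr (PP (p 0)) (QQ (p 0)) =
      QQ (p 0) * ((PP v - C a * QQ (p 0) - C (V 0) * QQ v) +
        C (deriv c 0) * derivative (PP (p 0) - C (V 0) * QQ (p 0))) -
      (PP (p 0) - C (V 0) * QQ (p 0)) * (QQ v + C (deriv c 0) * derivative (QQ (p 0))) := by
    rw [varS, wr, derivative_sub, derivative_C_mul]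
    ring
  rw [e]
  exact dvd_sub (Dvd.dvd.mul_left hd1 _) (Dvd.dvd.mul_right h0 _)

/-- the chain rule for one step of the iteration -/
theorem step {d : ℕ} {p : ℂ → EE d} {v : EE d} (hp : HasDerivAt p v 0) (z : ℂ → ℂ) (z' : ℂ)
    (hz : HasDerivAt z z' 0) (hQ : (QQ (p 0)).eval (z 0) ≠ 0) :
    HasDerivAt (fun s => rf (PP (p s)) (QQ (p s)) (z s))
      ((varS (p 0) v).eval (z 0) / (QQ (p 0)).eval (z 0) ^ 2 +
        (wr (PP (p 0)) (QQ (p 0))).eval (z 0) / (QQ (p 0)).eval (z 0) ^ 2 * z') 0 := by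
  have hPc := fun n => (coeff_deriv hp n).1
  have hQc := fun n => (coeff_deriv hp n).2
  have hPe := hasDerivAt_eval (fun s => PP (p s)) (PP v) d (fun s => PP_deg _) (PP_deg _) hPc z _
    hz
  have hQe := hasDerivAt_eval (fun s => QQ (p s)) (QQ v) d (fun s => QQ_deg _) (QQ_deg _) hQc z _
    hz
  refine (hPe.fun_div hQe hQ).congr_deriv ?_
  rw [varS, wr, eval_sub, eval_sub, eval_mul, eval_mul, eval_mul, eval_mul]
  field_simp
  ring

/-- **Speeds in families** -/
theorem t_TANR : S_TANR := by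
  classical
  intro d p v hp r c m hc hdvd hQ hinj _ hz hm hco
  refine ⟨?_, ?_⟩
  · obtain ⟨a, ha⟩ : ∃ a : Fin r → ℂ,
        a = fun i => deriv (fun s => rf (PP (p s)) (QQ (p s)) (c i s)) 0 := ⟨_, rfl⟩
    have hau : ∀ i j, rf (PP (p 0)) (QQ (p 0)) (c i 0) = rf (PP (p 0)) (QQ (p 0)) (c j 0) →
        a i = a j := by
      intro i j hij
      rw [ha]
      exact Filter.EventuallyEq.deriv_eq (hco i j hij)
    have hκ : ∀ i, (if h : ∃ j, c j 0 = c i 0 then deriv (c h.choose) 0 else 0) =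
        deriv (c i) 0 := by
      intro i
      have hex : ∃ j, c j 0 = c i 0 := ⟨i, rfl⟩
      rw [dif_pos hex]
      have h1 : hex.choose = i := hinj hex.choose_spec
      rw [h1]
    refine ⟨fun y => if h : ∃ i, rf (PP (p 0)) (QQ (p 0)) (c i 0) = y then a h.choose else 0,
      fun z => if h : ∃ j, c j 0 = z then deriv (c h.choose) 0 else 0, ?_, hκ⟩
    intro z hzz
    obtain ⟨i, hi⟩ := hz z hzz
    have hex : ∃ j, rf (PP (p 0)) (QQ (p 0)) (c j 0) = rf (PP (p 0)) (QQ (p 0)) (c i 0) :=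
      ⟨i, rfl⟩
    rw [← hi]
    simp only
    rw [hκ i, dif_pos hex, hau hex.choose i hex.choose_spec, hm i, ha]
    exact tan_two hp (c i) (m i) (hc i) (hdvd i) (hQ i)
  · intro i n
    induction n with
    | zero =>
      intro _
      exact (hc i).hasDerivAt
    | succ n ih =>
      intro hn
      have h1 := ih (fun j hj => hn j (by omega))
      have h2 := step hp _ _ h1 (hn n (by omega))
      simp only [Function.iterate_succ_apply']
      exact h2

end Pool.Agent.H784.TF207
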